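import Pool.Agent.Lib.MP_555292_an.Cantorval

/-!
# MP_555292_an: an achievable adjoint Cantorval

All sequences are indexed by `n ≥ 1` as in the problem (the value at `0` is not used).
-/

set_option autoImplicit false

open Pool.Agent.Lib.MP_555292_an

namespace Pool.Agent.Results.MP_555292_an.AdjointAchievable

/-- the achievement set of `y_1, y_2, ...` -/
def achievement (y : ℕ → ℝ) : Set ℝ :=
  {s | ∃ ε : ℕ → ℝ, (∀ n, ε n = 0 ∨ ε n = 1) ∧ s = ∑' n, ε (n + 1) * y (n + 1)}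

/-- the tail `r_n = ∑_{k > n} x_k` -/
noncomputable def tail (x : ℕ → ℝ) (n : ℕ) : ℝ := ∑' k, x (n + 1 + k)

/-- `x_1, x_2, ...` is fast convergent -/
def FastConvergent (x : ℕ → ℝ) : Prop :=
  (∀ n, 1 ≤ n → 0 < x n) ∧ Summable (fun n => x (n + 1)) ∧ ∀ n, 1 ≤ n → tail x n < x n

/-- the union `G_n` of the gaps `(s + r_n, s + x_n)`, `s = ∑_{k < n} ε_k x_k`, removed at step `n` -/
def gaps (x : ℕ → ℝ) (n : ℕ) : Set ℝ :=
  {t | ∃ ε : ℕ → ℝ, (∀ k, ε k = 0 ∨ ε k = 1) ∧
    (∑ k ∈ Finset.Ico 1 n, ε k * x k) + tail x n < t ∧ t < (∑ k ∈ Finset.Ico 1 n, ε k * x k) + x n}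

/-- the adjoint Cantorval of `E(x_n)` -/
def adjoint (x : ℕ → ℝ) : Set ℝ := achievement x ∪ ⋃ n : {n : ℕ // Odd n}, gaps x n

/-- reindexing -/
theorem achievement_shift (z : ℕ → ℝ) : achievement (fun n => z (n - 1)) = E z := by
  classical
  ext s
  constructor
  · rintro ⟨ε, hε, rfl⟩
    refine ⟨{n | ε (n + 1) = 1}, tsum_congr fun n => ?_⟩
    rcases hε (n + 1) with h | h
    · rw [Set.indicator_of_notMem (by simp [h]), h, zero_mul]
    · rw [Set.indicator_of_mem (by simpa using h), h, one_mul]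
      simp
  · rintro ⟨A, rfl⟩
    refine ⟨fun n => if n - 1 ∈ A then 1 else 0, fun n => ?_, tsum_congr fun n => ?_⟩
    · dsimp only
      split_ifs
      · exact Or.inr rfl
      · exact Or.inl rfl
    · by_cases h : n ∈ A
      · rw [Set.indicator_of_mem h]
        simp [h]
      · rw [Set.indicator_of_notMem h]
        simp [h]

theorem tail_shift (z : ℕ → ℝ) (n : ℕ) :
    tail (fun n => z (n - 1)) n = ∑' k, z (n + k) := by
  refine tsum_congr fun k => ?_
  show z (n + 1 + k - 1) = z (n + k)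
  congr 1
  omega

theorem gaps_shift (z : ℕ → ℝ) (n : ℕ) :
    gaps (fun n => z (n - 1)) (n + 1) = {t : ℝ | ∃ F : Finset ℕ, F ⊆ Finset.range n ∧
      (∑ i ∈ F, z i) + (∑' k, z (n + 1 + k)) < t ∧ t < (∑ i ∈ F, z i) + z n} := by
  classical
  have hsum : ∀ ε : ℕ → ℝ, ∑ k ∈ Finset.Ico 1 (n + 1), ε k * z (k - 1) =
      ∑ i ∈ Finset.range n, ε (i + 1) * z i := by
    intro ε
    have h := Finset.sum_Ico_add' (fun k => ε k * z (k - 1)) 0 n 1
    simp only [Nat.add_sub_cancel, zero_add] at h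
    rw [Finset.range_eq_Ico, ← h]
  ext t
  constructor
  · rintro ⟨ε, hε, h1, h2⟩
    have e : ∑ k ∈ Finset.Ico 1 (n + 1), ε k * z (k - 1) =
        ∑ i ∈ (Finset.range n).filter (fun i => ε (i + 1) = 1), z i := by
      rw [hsum, Finset.sum_filter]
      refine Finset.sum_congr rfl fun i _ => ?_
      rcases hε (i + 1) with h | h
      · simp [h]
      · simp [h]
    rw [e, tail_shift] at h1
    rw [e] at h2
    exact ⟨_, Finset.filter_subset _ _, h1, by simpa using h2⟩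
  · rintro ⟨F, hF, h1, h2⟩
    have e : ∑ k ∈ Finset.Ico 1 (n + 1), (if k - 1 ∈ F then (1 : ℝ) else 0) * z (k - 1) =
        ∑ i ∈ F, z i := by
      rw [hsum, ← Finset.sum_subset hF]
      · refine Finset.sum_congr rfl fun i hi => ?_
        simp [hi]
      · intro i _ hi
        simp [hi]
    refine ⟨fun k => if k - 1 ∈ F then 1 else 0, fun k => ?_, ?_, ?_⟩
    · dsimp only
      split_ifs
      · exact Or.inr rfl
      · exact Or.inl rfl
    · show ∑ k ∈ Finset.Ico 1 (n + 1), (if k - 1 ∈ F then (1 : ℝ) else 0) * z (k - 1) + _ < t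
      rw [e, tail_shift]
      exact h1
    · show t < ∑ k ∈ Finset.Ico 1 (n + 1), (if k - 1 ∈ F then (1 : ℝ) else 0) * z (k - 1) + _
      rw [e]
      simpa using h2

theorem adjoint_shift : adjoint (fun n => xs (n - 1)) = X := by
  rw [adjoint, achievement_shift, X]
  congr 1
  ext t
  rw [Set.mem_iUnion]
  constructor
  · rintro ⟨⟨n, hn⟩, ht⟩
    obtain ⟨m, hm⟩ : ∃ m, n = m + 1 := ⟨n - 1, by rcases hn with ⟨k, hk⟩; omega⟩
    subst hm
    have ht' : t ∈ gaps (fun n => xs (n - 1)) (m + 1) := ht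
    rw [gaps_shift] at ht'
    obtain ⟨F, hF, h1, h2⟩ := ht'
    refine ⟨m, ?_, F, hF, h1, h2⟩
    rcases hn with ⟨k, hk⟩
    exact ⟨k, by omega⟩
  · rintro ⟨n, hn, F, hF, h1, h2⟩
    refine ⟨⟨n + 1, hn.add_one⟩, ?_⟩
    show t ∈ gaps (fun n => xs (n - 1)) (n + 1)
    rw [gaps_shift]
    exact ⟨F, hF, h1, h2⟩

theorem result :
    ∃ x y : ℕ → ℝ,
      (∀ j, x (2 * j + 1) = 18 / 9 ^ j ∧ x (2 * j + 2) = 3 / 9 ^ j) ∧
      (∀ j, y (4 * j + 1) = 7 / 9 ^ j ∧ y (4 * j + 2) = 6 / 9 ^ j ∧ y (4 * j + 3) = 5 / 9 ^ j ∧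
        y (4 * j + 4) = 3 / 9 ^ j) ∧
      FastConvergent x ∧ Summable (fun n => |y (n + 1)|) ∧ adjoint x = achievement y := by
  refine ⟨fun n => xs (n - 1), fun n => ys (n - 1), ?_, ?_, ⟨?_, ?_, ?_⟩, ?_, ?_⟩
  · intro j
    constructor
    · show xs (2 * j + 1 - 1) = _
      have h1 : (2 * j + 1 - 1) % 2 = 0 := by omega
      have h2 : (2 * j + 1 - 1) / 2 = j := by omega
      rw [xs, h1, h2, if_pos rfl, one_div, inv_pow, div_eq_mul_inv]
    · show xs (2 * j + 2 - 1) = _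
      have h1 : (2 * j + 2 - 1) % 2 = 1 := by omega
      have h2 : (2 * j + 2 - 1) / 2 = j := by omega
      rw [xs, h1, h2, if_neg (by norm_num), one_div, inv_pow, div_eq_mul_inv]
  · intro j
    refine ⟨?_, ?_, ?_, ?_⟩
    · show ys (4 * j + 1 - 1) = _
      have h1 : (4 * j + 1 - 1) % 4 = 0 := by omega
      have h2 : (4 * j + 1 - 1) / 4 = j := by omega
      rw [ys, h1, h2, one_div, inv_pow, div_eq_mul_inv]
      norm_num
    · show ys (4 * j + 2 - 1) = _
      have h1 : (4 * j + 2 - 1) % 4 = 1 := by omega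
      have h2 : (4 * j + 2 - 1) / 4 = j := by omega
      rw [ys, h1, h2, one_div, inv_pow, div_eq_mul_inv]
      norm_num
    · show ys (4 * j + 3 - 1) = _
      have h1 : (4 * j + 3 - 1) % 4 = 2 := by omega
      have h2 : (4 * j + 3 - 1) / 4 = j := by omega
      rw [ys, h1, h2, one_div, inv_pow, div_eq_mul_inv]
      norm_num
    · show ys (4 * j + 4 - 1) = _
      have h1 : (4 * j + 4 - 1) % 4 = 3 := by omega
      have h2 : (4 * j + 4 - 1) / 4 = j := by omega
      rw [ys, h1, h2, one_div, inv_pow, div_eq_mul_inv]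
      norm_num
  · intro n _
    exact xs_pos _
  · exact xs_summable
  · intro n hn
    obtain ⟨m, rfl⟩ : ∃ m, n = m + 1 := ⟨n - 1, by omega⟩
    rw [tail_shift]
    exact T_lt m
  · have : (fun n => |ys (n + 1 - 1)|) = ys := by
      funext n
      exact abs_of_pos (ys_pos n)
    rw [this]
    exact ys_summable
  · rw [adjoint_shift, achievement_shift]
    exact (Set.Subset.antisymm E_sub_X X_sub_E).symm

end Pool.Agent.Results.MP_555292_an.AdjointAchievable
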